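import Pool.Agent.TH805.CG.Ext

/-!
# Six equal values: the base cases
-/

set_option autoImplicit false
set_option maxRecDepth 100000

namespace Pool.Agent.TH805.CG6

open Pool.Agent.W289.CG

/-- the list of the points `a/l, b/l, -(a+b)/l` and `± a/l` -/
def lst (O : List (ℤ × ℤ × ℕ)) (R : List (ℤ × ℕ)) : List ℚ :=
  (O.flatMap fun t => [mkRat t.1 t.2.2, mkRat t.2.1 t.2.2, mkRat (-(t.1 + t.2.1)) t.2.2]) ++
    R.flatMap fun t => [mkRat t.1 t.2, mkRat (-t.1) t.2]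

/-- the product of the differences -/
def pr (b1 b2 : ℤ) (L : List ℚ) (j : Fin 6) : ℚ := (L.map fun s => (pt b1 b2 j : ℚ) - s).prod

/-- the condition, without the value -/
def Chk7 (b1 b2 : ℤ) (L : List ℚ) : Prop :=
  L.Nodup ∧ 0 < pr b1 b2 L 0 ∧ (∀ j : Fin 6, pr b1 b2 L j = pr b1 b2 L 0) ∧
    (∀ j : Fin 6, (L.map fun s => ((pt b1 b2 j : ℚ) - s)⁻¹).sum ≠ 0) ∧
    ∃ s ∈ L, (b1 : ℚ) + b2 < s

theorem Chk7.six {b1 b2 : ℤ} {L : List ℚ} (h : Chk7 b1 b2 L) :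
    Chk6 b1 b2 L (pr b1 b2 L 0) := h

def O0 : List (ℤ × ℤ × ℕ) :=
    []

def R0 : List (ℤ × ℕ) :=
    [(86, 7), (127, 7), (213, 7), (73, 7), (138, 7), (211, 7)]

theorem chk0 : Chk7 6 23 (lst O0 R0) := by
  unfold Chk7
  decide +kernel

theorem len0 : (lst O0 R0).length = 12 := by
  decide +kernel

theorem res0 (n : ℕ) (hn : 12 ≤ n) (h : n % 6 = 0) : Nonempty (Dat n 6) :=
  dat6 6 23 (by norm_num) (by norm_num) _ _ chk0.six n (by rw [len0]; exact hn)
    (by rw [len0, h])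

def O2 : List (ℤ × ℤ × ℕ) :=
    []

def R2 : List (ℤ × ℕ) :=
    [(40, 1), (91, 1), (142, 1), (159, 1)]

theorem chk2 : Chk7 26 105 (lst O2 R2) := by
  unfold Chk7
  decide +kernel

theorem len2 : (lst O2 R2).length = 8 := by
  decide +kernel

theorem res2 (n : ℕ) (hn : 8 ≤ n) (h : n % 6 = 2) : Nonempty (Dat n 6) :=
  dat6 26 105 (by norm_num) (by norm_num) _ _ chk2.six n (by rw [len2]; exact hn)
    (by rw [len2, h])

def O4 : List (ℤ × ℤ × ℕ) :=
    []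

def R4 : List (ℤ × ℕ) :=
    [(23, 1), (54, 1), (86, 1), (123, 1), (143, 1)]

theorem chk4 : Chk7 33 89 (lst O4 R4) := by
  unfold Chk7
  decide +kernel

theorem len4 : (lst O4 R4).length = 10 := by
  decide +kernel

theorem res4 (n : ℕ) (hn : 10 ≤ n) (h : n % 6 = 4) : Nonempty (Dat n 6) :=
  dat6 33 89 (by norm_num) (by norm_num) _ _ chk4.six n (by rw [len4]; exact hn)
    (by rw [len4, h])

theorem even6 (n : ℕ) (h : 12 ≤ n) (h2 : n % 2 = 0) : Nonempty (Dat n 6) := by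
  have hr : n % 6 = 0 ∨ n % 6 = 2 ∨ n % 6 = 4 := by omega
  rcases hr with hr | hr | hr
  · exact res0 n (by omega) hr
  · exact res2 n (by omega) hr
  · exact res4 n (by omega) hr

end Pool.Agent.TH805.CG6
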