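import Pool.Agent.TH805.CG.Ext4

/-!
# Four equal values: the base cases
-/

set_option autoImplicit false
set_option maxRecDepth 100000

namespace Pool.Agent.TH805.CG4

open Pool.Agent.W289.CG

theorem chk1 : Chk4 9 13 [-15, -3, 1, 19, 23] 322560 := by
  unfold Chk4
  decide +kernel

/-- the product of the differences -/
def pr (b1 b2 : ℤ) (L : List ℚ) (j : Fin 4) : ℚ := (L.map fun s => (pt b1 b2 j : ℚ) - s).prod

theorem chk3 : Chk4 9 13 [-15, -3, 1, 19, 23, 1 / 3, 53 / 3, 65 / 3, -1 / 3, -53 / 3, -65 / 3]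
    (pr 9 13 [-15, -3, 1, 19, 23, 1 / 3, 53 / 3, 65 / 3, -1 / 3, -53 / 3, -65 / 3] 0) := by
  unfold Chk4
  decide +kernel

theorem all4 (n : ℕ) (hn : 11 ≤ n) (h : n % 2 = 1) : Nonempty (Dat n 4) := by
  by_cases h4 : n % 4 = 1
  · exact dat4 9 13 (by norm_num) (by norm_num) _ _ chk1 n (by simp; omega) (by simp; omega)
  · exact dat4 9 13 (by norm_num) (by norm_num) _ _ chk3 n (by simp; omega) (by simp; omega)

end Pool.Agent.TH805.CG4
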