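import Pool.Agent.TH805.CG.Base
import Pool.Agent.TH805.CG.Base4

/-!
# Six equal values in the degrees below 46
-/

set_option autoImplicit false
set_option maxRecDepth 100000

namespace Pool.Agent.TH805.CG6

open Pool.Agent.W289.CG

def P29 : List (ℤ × ℕ) :=
    [(-18, 1), (-15, 1), (-14, 1), (-13, 1), (-12, 1), (-10, 1), (-9, 1), (-8, 1), (-13, 4),
    (-38, 13), (-8, 3), (-7, 3), (-9, 4), (-2, 5), (-1, 9), (-1, 13), (1, 13), (1, 9), (3, 7),
    (29, 13), (7, 3), (8, 3), (38, 13), (13, 4), (5, 1), (11, 2), (7, 1), (15, 1), (18, 1)]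

def P31 : List (ℤ × ℕ) :=
    [(-53, 1), (-15, 1), (-11, 2), (-83, 19), (-4, 1), (-11, 3), (-94, 31), (-38, 13), (-8, 3),
    (-47, 19), (-7, 3), (-17, 9), (-11, 7), (-6, 7), (-4, 7), (-6, 11), (1, 7), (6, 11), (6, 7),
    (3, 2), (11, 7), (29, 13), (9, 4), (47, 19), (38, 13), (94, 31), (17, 5), (4, 1), (83, 19),
    (9, 2), (5, 1)]

def P33 : List (ℤ × ℤ × ℕ) :=
    [(-1, -18, 7), (-9, -109, 43), (29, 177, 73), (114, 197, 103), (74, 309, 133),
    (-2, -589, 223), (-162, -541, 241), (-383, -619, 331), (317, 921, 421), (193, 1373, 559),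
    (-837, -1346, 721)]

theorem chkP29 : Chk7 1 2 (P29.map fun t => mkRat t.1 t.2) := by
  unfold Chk7
  decide +kernel

theorem lenP29 : (P29.map fun t => mkRat t.1 t.2).length = 29 := by
  decide +kernel

theorem chkP31 : Chk7 1 2 (P31.map fun t => mkRat t.1 t.2) := by
  unfold Chk7
  decide +kernel

theorem lenP31 : (P31.map fun t => mkRat t.1 t.2).length = 31 := by
  decide +kernel

theorem chkP33 : Chk7 1 2 (lst P33 []) := by
  unfold Chk7
  decide +kernel

theorem lenP33 : (lst P33 []).length = 33 := by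
  decide +kernel

theorem odd5 (n : ℕ) (hn : 29 ≤ n) (h : n % 6 = 5) : Nonempty (Dat n 6) :=
  dat6 1 2 (by norm_num) (by norm_num) _ _ chkP29.six n (by rw [lenP29]; exact hn)
    (by rw [lenP29, h])

theorem odd1 (n : ℕ) (hn : 31 ≤ n) (h : n % 6 = 1) : Nonempty (Dat n 6) :=
  dat6 1 2 (by norm_num) (by norm_num) _ _ chkP31.six n (by rw [lenP31]; exact hn)
    (by rw [lenP31, h])

theorem odd3 (n : ℕ) (hn : 33 ≤ n) (h : n % 6 = 3) : Nonempty (Dat n 6) :=
  dat6 1 2 (by norm_num) (by norm_num) _ _ chkP33.six n (by rw [lenP33]; exact hn)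
    (by rw [lenP33, h])

end Pool.Agent.TH805.CG6
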