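import Pool.Agent.TH805.CG.Ext

/-!
# Four equal values: adding blocks of four points
-/

set_option autoImplicit false

namespace Pool.Agent.TH805.CG4

open Polynomial Pool.Agent.W289.CG Pool.Agent.W460.CG Filter Topology

/-- the four points `±b₁, ±b₂` -/
def pt (b1 b2 : ℤ) : Fin 4 → ℤ := ![b1, b2, -b1, -b2]

/-- the monic polynomial with roots `S` takes the same positive value, with nonzero derivative,
at the four points, and `S` has an element larger than `b₂` -/
structure Good (b1 b2 : ℤ) (S : Finset ℚ) (v : ℚ) : Prop where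
  hv : 0 < v
  ev : ∀ j, (PS S).eval (pt b1 b2 j : ℚ) = v
  der : ∀ j, (derivative (PS S)).eval (pt b1 b2 j : ℚ) ≠ 0
  big : ∃ s ∈ S, (b2 : ℚ) < s

lemma cube_pt (b1 b2 : ℤ) (j : Fin 4) :
    (pt b1 b2 j : ℚ) ^ 4 - ((b1 : ℚ) ^ 2 + (b2 : ℚ) ^ 2) * (pt b1 b2 j : ℚ) ^ 2 =
      -((b1 : ℚ) * b2) ^ 2 := by
  fin_cases j <;> simp [pt] <;> ring

/-- the block of four points -/
lemma block4 {p q N : ℚ} (h : p ^ 2 + q ^ 2 = N) (h1 : 0 < p) (h2 : p < q) :
    ∃ T : Finset ℚ, T.card = 4 ∧ (∀ t ∈ T, t = p ∨ t = q ∨ t = -p ∨ t = -q) ∧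
      PS T = X ^ 4 - C N * X ^ 2 + C ((p * q) ^ 2) := by
  classical
  have n1 : p ∉ ({-p, q, -q} : Finset ℚ) := by
    rw [Finset.mem_insert, Finset.mem_insert, Finset.mem_singleton]
    rintro (h | h | h) <;> linarith
  have n2 : -p ∉ ({q, -q} : Finset ℚ) := by
    rw [Finset.mem_insert, Finset.mem_singleton]
    rintro (h | h) <;> linarith
  have n3 : q ∉ ({-q} : Finset ℚ) := by
    rw [Finset.mem_singleton]
    intro h
    linarith
  refine ⟨{p, -p, q, -q}, ?_, ?_, ?_⟩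
  · rw [Finset.card_insert_of_notMem n1, Finset.card_insert_of_notMem n2,
      Finset.card_insert_of_notMem n3, Finset.card_singleton]
  · intro t ht
    rw [Finset.mem_insert, Finset.mem_insert, Finset.mem_insert, Finset.mem_singleton] at ht
    rcases ht with ht | ht | ht | ht
    · exact Or.inl ht
    · exact Or.inr (Or.inr (Or.inl ht))
    · exact Or.inr (Or.inl ht)
    · exact Or.inr (Or.inr (Or.inr ht))
  · unfold PS
    rw [Finset.prod_insert n1, Finset.prod_insert n2, Finset.prod_insert n3,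
      Finset.prod_singleton]
    have h9 := congrArg (C : ℚ → ℚ[X]) h
    simp only [map_add, map_mul, map_pow, map_neg] at h9 ⊢
    linear_combination -(X : ℚ[X]) ^ 2 * h9

/-- the rational points near `(b₁, b₂)` on the circle -/
lemma par4 (b1 b2 : ℚ) (hb1 : 0 < b1) (hb : b1 < b2) (F : Finset ℚ) (F2 : Finset ℚ) :
    ∃ p q : ℚ, 0 < p ∧ p < q ∧ p ^ 2 + q ^ 2 = b1 ^ 2 + b2 ^ 2 ∧
      (p ∉ F ∧ q ∉ F) ∧ (-p ∉ F ∧ -q ∉ F) ∧ (p * q) ^ 2 ∉ F2 ∧ b1 * b2 < p * q := by
  classical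
  let F' : Finset ℚ := F ∪ F.image (fun x => -x)
  have hF' : ∀ x, x ∉ F' → x ∉ F ∧ -x ∉ F := by
    intro x hx
    rw [Finset.mem_union, not_or] at hx
    refine ⟨hx.1, fun h => hx.2 ?_⟩
    rw [Finset.mem_image]
    exact ⟨-x, h, neg_neg x⟩
  have hpos : ∀ᶠ u in 𝓝[>] (0 : ℚ), 0 < u := eventually_mem_nhdsWithin
  have hlt : ∀ᶠ u in 𝓝[>] (0 : ℚ), u < 1 :=
    (eventually_lt_nhds (by norm_num : (0 : ℚ) < 1)).filter_mono nhdsWithin_le_nhds
  have hb2 : 0 < b2 := hb1.trans hb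
  set P : ℚ → ℚ := fun u => (b1 * (1 - u ^ 2) + b2 * (2 * u)) / (1 + u ^ 2) with hPdef
  set Q : ℚ → ℚ := fun u => (b2 * (1 - u ^ 2) - b1 * (2 * u)) / (1 + u ^ 2) with hQdef
  have hP : Tendsto P (𝓝[>] (0 : ℚ)) (𝓝 b1) := by
    have := tendsto_div (N := fun u => b1 * (1 - u ^ 2) + b2 * (2 * u))
      (D := fun u => 1 + u ^ 2) (by fun_prop) (by fun_prop) (by norm_num)
    simpa using this
  have hQ : Tendsto Q (𝓝[>] (0 : ℚ)) (𝓝 b2) := by
    have := tendsto_div (N := fun u => b2 * (1 - u ^ 2) - b1 * (2 * u))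
      (D := fun u => 1 + u ^ 2) (by fun_prop) (by fun_prop) (by norm_num)
    simpa using this
  have hK := (hP.mul hQ).pow 2
  have hP1 : ∀ u : ℚ, 0 < u → u < 1 → b1 < P u := by
    intro u hu hu1
    have hD : 0 < 1 + u ^ 2 := by positivity
    rw [hPdef]
    simp only
    rw [lt_div_iff₀ hD]
    have h1 : 0 < (b2 - b1) * u := by
      have : 0 < b2 - b1 := by linarith
      positivity
    have h2 : 0 < b1 * u * (1 - u) := by
      have : 0 < 1 - u := by linarith
      positivity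
    nlinarith
  have hQ1 : ∀ u : ℚ, 0 < u → Q u < b2 := by
    intro u hu
    have hD : 0 < 1 + u ^ 2 := by positivity
    rw [hQdef]
    simp only
    rw [div_lt_iff₀ hD]
    have h1 : 0 < b1 * u := by positivity
    have h2 : 0 < b2 * u ^ 2 := by positivity
    nlinarith
  have hN : ∀ u : ℚ, 0 < u → P u ^ 2 + Q u ^ 2 = b1 ^ 2 + b2 ^ 2 := by
    intro u hu
    have hD : 1 + u ^ 2 ≠ 0 := by positivity
    rw [hPdef, hQdef]
    simp only
    field_simp
    ring
  have hKlt : ∀ u : ℚ, 0 < u → u < 1 → P u < Q u → b1 * b2 < P u * Q u := by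
    intro u hu hu1 h1
    have h3 := hP1 u hu hu1
    have h4 := hN u hu
    have h5 := hQ1 u hu
    have h6 : (Q u - P u) ^ 2 < (b2 - b1) ^ 2 :=
      pow_lt_pow_left₀ (by linarith) (by linarith) two_ne_zero
    nlinarith
  have e1 : ∀ᶠ u in 𝓝[>] (0 : ℚ), P u < Q u := hP.eventually_lt hQ hb
  have eP := eventually_notMem _ b1 hP (by
    filter_upwards [hpos, hlt] with u hu hu1
    exact (hP1 u hu hu1).ne') F'
  have eQ := eventually_notMem _ b2 hQ (by
    filter_upwards [hpos] with u hu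
    exact (hQ1 u hu).ne) F'
  have eK := eventually_notMem _ ((b1 * b2) ^ 2) hK (by
    filter_upwards [hpos, hlt, e1] with u hu hu1 h1
    have h2 := hKlt u hu hu1 h1
    have h3 : 0 ≤ b1 * b2 := by positivity
    exact (pow_lt_pow_left₀ h2 h3 two_ne_zero).ne') F2
  obtain ⟨u, h1, h2, h3, h4, h5, h7⟩ :=
    (hpos.and (hlt.and (e1.and (eP.and (eQ.and eK))))).exists
  refine ⟨P u, Q u, hb1.trans (hP1 u h1 h2), h3, hN u h1, ⟨(hF' _ h4).1, (hF' _ h5).1⟩,
    ⟨(hF' _ h4).2, (hF' _ h5).2⟩, h7, hKlt u h1 h2 h3⟩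

/-- adding a block of four points -/
theorem ext (b1 b2 : ℤ) (hb1 : 0 < b1) (hb : b1 < b2) (S : Finset ℚ) (v : ℚ)
    (h : Good b1 b2 S v) : ∃ (S' : Finset ℚ) (v' : ℚ), S'.card = S.card + 4 ∧ Good b1 b2 S' v' := by
  classical
  set N : ℚ := (b1 : ℚ) ^ 2 + (b2 : ℚ) ^ 2 with hN
  set c0 : ℚ := (b1 : ℚ) * b2 with hc0
  let x : Fin 4 → ℚ := fun j => (pt b1 b2 j : ℚ)
  let e : Fin 4 → ℚ := fun j => 4 * x j ^ 3 - 2 * N * x j
  let F2 : Finset ℚ := Finset.univ.image fun j : Fin 4 =>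
    c0 ^ 2 - v * e j / (derivative (PS S)).eval (x j)
  have hb1' : (0 : ℚ) < b1 := by exact_mod_cast hb1
  have hb' : (b1 : ℚ) < b2 := by exact_mod_cast hb
  obtain ⟨p, q, h1, h2, h4, ⟨h5, h6⟩, ⟨h8, h9⟩, h11, h12⟩ :=
    par4 (b1 : ℚ) b2 hb1' hb' S F2
  obtain ⟨T, t1, t2, t3⟩ := block4 h4 h1 h2
  set κ : ℚ := p * q with hκ
  have hdisj : Disjoint S T := by
    rw [Finset.disjoint_right]
    intro t ht
    rcases t2 t ht with rfl | rfl | rfl | rfl
    · exact h5
    · exact h6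
    · exact h8
    · exact h9
  have hv2 : 0 < κ ^ 2 - c0 ^ 2 := by
    have h13 : 0 ≤ (b1 : ℚ) * b2 := by
      have : (0 : ℚ) < b2 := hb1'.trans hb'
      positivity
    have := pow_lt_pow_left₀ h12 h13 two_ne_zero
    linarith
  have ev2 : ∀ j, (PS T).eval (x j) = κ ^ 2 - c0 ^ 2 := by
    intro j
    rw [t3]
    simp only [eval_add, eval_sub, eval_pow, eval_mul, eval_X, eval_C]
    have := cube_pt b1 b2 j
    simp only [x]
    linarith
  have de2 : ∀ j, (derivative (PS T)).eval (x j) = e j := by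
    intro j
    rw [t3]
    simp only [derivative_sub, derivative_pow, derivative_mul, derivative_X, derivative_C,
      derivative_add, eval_sub, eval_mul, eval_pow, eval_X, eval_C, eval_add, eval_zero,
      eval_one, Nat.cast_ofNat]
    simp only [e]
    norm_num
    ring
  refine ⟨S ∪ T, v * (κ ^ 2 - c0 ^ 2), ?_, ?_⟩
  · rw [Finset.card_union_of_disjoint hdisj, t1]
  · refine ⟨mul_pos h.hv hv2, ?_, ?_, ?_⟩
    · intro j
      rw [PS_union hdisj, eval_mul, h.ev j]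
      congr 1
      exact ev2 j
    · intro j h0
      rw [PS_union hdisj, derivative_mul, eval_add, eval_mul, eval_mul, h.ev j] at h0
      have g1 := ev2 j
      have g2 := de2 j
      simp only [x] at g1 g2
      rw [g1, g2] at h0
      apply h11
      rw [Finset.mem_image]
      refine ⟨j, Finset.mem_univ j, ?_⟩
      have g3 := h.der j
      simp only [x]
      field_simp
      linarith
    · obtain ⟨s, hs, hs1⟩ := h.big
      exact ⟨s, Finset.mem_union_left _ hs, hs1⟩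

theorem iter (b1 b2 : ℤ) (hb1 : 0 < b1) (hb : b1 < b2) (S : Finset ℚ) (v : ℚ)
    (h : Good b1 b2 S v) (k : ℕ) :
    ∃ (S' : Finset ℚ) (v' : ℚ), S'.card = S.card + 4 * k ∧ Good b1 b2 S' v' := by
  induction k with
  | zero => exact ⟨S, v, rfl, h⟩
  | succ k ih =>
    obtain ⟨S1, v1, h1, h2⟩ := ih
    obtain ⟨S2, v2, h3, h4⟩ := ext b1 b2 hb1 hb S1 v1 h2
    exact ⟨S2, v2, by rw [h3, h1]; ring, h4⟩

theorem of_good (b1 b2 : ℤ) (hb1 : 0 < b1) (hb : b1 < b2) (n : ℕ) (S : Finset ℚ) (v : ℚ)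
    (hcard : S.card = n) (h : Good b1 b2 S v) : Nonempty (Dat n 4) := by
  classical
  let e : Fin n ≃ S := (S.equivFinOfCardEq hcard).symm
  let D : ℕ := ∏ t ∈ S, t.den
  have hD : 0 < D := Finset.prod_pos fun t _ => t.den_pos
  have hDQ : (0 : ℚ) < D := by exact_mod_cast hD
  have hz : ∀ i : Fin n, ∃ z : ℤ, (z : ℚ) = D * (e i : ℚ) := by
    intro i
    obtain ⟨m, hm⟩ : (e i : ℚ).den ∣ D := Finset.dvd_prod_of_mem _ (e i).2
    refine ⟨m * (e i : ℚ).num, ?_⟩
    rw [hm]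
    push_cast
    have h1 := Rat.num_div_den (e i : ℚ)
    have h2 : ((e i : ℚ).den : ℚ) ≠ 0 := by exact_mod_cast (e i : ℚ).den_ne_zero
    rw [div_eq_iff h2] at h1
    rw [h1]
    ring
  choose a ha using hz
  let b : Fin 4 → ℤ := fun j => (D : ℤ) * pt b1 b2 j
  have hb3 : ∀ j, (b j : ℚ) = D * (pt b1 b2 j : ℚ) := by
    intro j
    simp only [b]
    push_cast
    ring
  have hprod : ∀ y : ℚ, ∏ i, (y - (e i : ℚ)) = (PS S).eval y := by
    intro y
    unfold PS
    rw [eval_prod, Equiv.prod_comp e (fun s : S => y - (s : ℚ)),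
      Finset.prod_coe_sort S (fun s => y - s)]
    exact Finset.prod_congr rfl fun s _ => by simp
  have hev : ∀ (z : ℤ) (y : ℚ), (z : ℚ) = D * y →
      (((pA a).eval z : ℤ) : ℚ) = (D : ℚ) ^ n * (PS S).eval y := by
    intro z y hzy
    unfold pA
    rw [eval_prod]
    simp only [eval_sub, eval_X, eval_C]
    push_cast
    rw [← hprod y]
    have : ∀ i, (z : ℚ) - (a i : ℚ) = D * (y - (e i : ℚ)) := by
      intro i
      rw [hzy, ha]
      ring
    rw [Finset.prod_congr rfl fun i _ => this i, Finset.prod_mul_distrib, Finset.prod_const,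
      Finset.card_univ, Fintype.card_fin]
  have hptinj : Function.Injective (pt b1 b2) := by
    intro i j hij
    fin_cases i <;> fin_cases j <;> simp [pt] at hij ⊢ <;> omega
  have hptle : ∀ j, pt b1 b2 j ≤ b2 := by
    intro j
    fin_cases j <;> simp [pt] <;> omega
  have hcomp : ((pA a).map (Int.castRingHom ℚ)).comp (C (D : ℚ) * X) =
      C ((D : ℚ) ^ n) * PS S := by
    unfold pA PS
    rw [Polynomial.map_prod, prod_comp]
    have h1 : ∏ s ∈ S, (X - C s : ℚ[X]) = ∏ i, (X - C (e i : ℚ)) := by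
      rw [Equiv.prod_comp e (fun s : S => (X - C (s : ℚ) : ℚ[X])),
        Finset.prod_coe_sort S (fun s => (X - C s : ℚ[X]))]
    rw [h1]
    have h2 : ∀ i, ((X - C (a i)).map (Int.castRingHom ℚ)).comp (C (D : ℚ) * X) =
        C (D : ℚ) * (X - C (e i : ℚ)) := by
      intro i
      rw [Polynomial.map_sub, map_X, map_C, sub_comp, X_comp, C_comp]
      change C (D : ℚ) * X - C ((a i : ℤ) : ℚ) = _
      rw [ha, C_mul]
      ring
    rw [Finset.prod_congr rfl fun i _ => h2 i, Finset.prod_mul_distrib, Finset.prod_const,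
      Finset.card_univ, Fintype.card_fin, C_pow]
  refine ⟨{ a := a, b := b, c := (pA a).eval (b 0), ha := ?_, hb := ?_, hc := ?_, hab := ?_,
            hder := ?_, hlt := ?_ }⟩
  · intro i j hij
    apply e.injective
    apply Subtype.ext
    have h1 := ha i
    rw [hij, ha j] at h1
    exact (mul_left_cancel₀ hDQ.ne' h1).symm
  · intro i j hij
    apply hptinj
    have h1 : (D : ℤ) * pt b1 b2 i = (D : ℤ) * pt b1 b2 j := hij
    have hD0 : (D : ℤ) ≠ 0 := by exact_mod_cast hD.ne'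
    exact mul_left_cancel₀ hD0 h1
  · have h1 := hev (b 0) _ (hb3 0)
    rw [h.ev 0] at h1
    have h2 : (0 : ℚ) < (((pA a).eval (b 0) : ℤ) : ℚ) := by
      rw [h1]
      have := h.hv
      positivity
    exact_mod_cast h2
  · intro j
    have h1 := hev (b j) _ (hb3 j)
    have h2 := hev (b 0) _ (hb3 0)
    rw [h.ev j] at h1
    rw [h.ev 0, ← h1] at h2
    exact_mod_cast h2.symm
  · intro j h0
    apply h.der j
    have h1 := congrArg derivative hcomp
    rw [derivative_comp, derivative_C_mul, derivative_C_mul, derivative_X, mul_one] at h1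
    have h2 := congrArg (eval (pt b1 b2 j : ℚ)) h1
    rw [eval_mul, eval_C, eval_comp, eval_mul, eval_C, eval_X, eval_mul, eval_C] at h2
    have h4 : eval ((D : ℚ) * (pt b1 b2 j : ℚ)) (derivative ((pA a).map (Int.castRingHom ℚ))) =
        0 := by
      rw [← hb3 j, derivative_map]
      have h5 : ((b j : ℤ) : ℚ) = Int.castRingHom ℚ (b j) := rfl
      rw [h5, eval_map, eval₂_hom, h0, map_zero]
    rw [h4, mul_zero] at h2
    have h5 : ((D : ℚ) ^ n) ≠ 0 := by positivity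
    exact (mul_eq_zero.1 h2.symm).resolve_left h5
  · intro j
    obtain ⟨s, hs, hs1⟩ := h.big
    refine ⟨e.symm ⟨s, hs⟩, ?_⟩
    have h1 := ha (e.symm ⟨s, hs⟩)
    rw [Equiv.apply_symm_apply] at h1
    have h2 : ((b j : ℤ) : ℚ) < (a (e.symm ⟨s, hs⟩) : ℤ) := by
      rw [h1, hb3 j]
      apply mul_lt_mul_of_pos_left _ hDQ
      have h3 : (pt b1 b2 j : ℚ) ≤ (b2 : ℚ) := by exact_mod_cast hptle j
      exact h3.trans_lt hs1
    exact_mod_cast h2

/-- the condition on the list of points, in a form which can be computed -/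
def Chk4 (b1 b2 : ℤ) (L : List ℚ) (v : ℚ) : Prop :=
  L.Nodup ∧ 0 < v ∧ (∀ j : Fin 4, (L.map fun s => (pt b1 b2 j : ℚ) - s).prod = v) ∧
    (∀ j : Fin 4, (L.map fun s => ((pt b1 b2 j : ℚ) - s)⁻¹).sum ≠ 0) ∧
    ∃ s ∈ L, (b2 : ℚ) < s

instance (b1 b2 : ℤ) (L : List ℚ) (v : ℚ) : Decidable (Chk4 b1 b2 L v) := by
  unfold Chk4
  infer_instance

theorem good_of_chk (b1 b2 : ℤ) (L : List ℚ) (v : ℚ) (h : Chk4 b1 b2 L v) :
    ∃ S : Finset ℚ, S.card = L.length ∧ Good b1 b2 S v := by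
  classical
  obtain ⟨h1, h2, h3, h4, s, hs, hs1⟩ := h
  have hPS : PS L.toFinset = (L.map fun s => (X - C s : ℚ[X])).prod := by
    unfold PS
    exact List.prod_toFinset _ h1
  have hev : ∀ y : ℚ, (PS L.toFinset).eval y = (L.map fun s => y - s).prod := by
    intro y
    rw [hPS, eval_list_prod, List.map_map]
    congr 1
    apply List.map_congr_left
    intro t _
    simp
  have hne : ∀ j : Fin 4, ∀ t ∈ L, (pt b1 b2 j : ℚ) - t ≠ 0 := by
    intro j t ht h0
    have h5 := h3 j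
    rw [List.prod_eq_zero (by rw [List.mem_map]; exact ⟨t, ht, h0⟩)] at h5
    exact h2.ne h5
  refine ⟨L.toFinset, List.toFinset_card_of_nodup h1, h2, ?_, ?_, s, by simpa using hs, hs1⟩
  · intro j
    rw [hev, h3]
  · intro j
    rw [hPS, CG6.der_list _ _ (hne j), h3 j]
    exact mul_ne_zero h2.ne' (h4 j)

theorem dat4 (b1 b2 : ℤ) (hb1 : 0 < b1) (hb : b1 < b2) (L : List ℚ) (v : ℚ)
    (h : Chk4 b1 b2 L v) (n : ℕ) (hn : L.length ≤ n) (hn6 : n % 4 = L.length % 4) :
    Nonempty (Dat n 4) := by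
  obtain ⟨S, h1, h2⟩ := good_of_chk b1 b2 L v h
  obtain ⟨S', v', h3, h4⟩ := iter b1 b2 hb1 hb S v h2 ((n - L.length) / 4)
  exact of_good b1 b2 hb1 hb n S' v' (by rw [h3, h1]; omega) h4

end Pool.Agent.TH805.CG4
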